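import Pool.Agent.Helper22.TL.Spec

set_option autoImplicit false

/-! # TL, part CX: the barycentric subdivision as a colored triangulation -/

namespace TL

open Set

namespace CXaux

variable {d : ℕ} {𝒯 : Set (Set (E d))}

theorem flg_inj (Φ Ψ : Flg 𝒯) (h : Φ.F = Ψ.F) : Φ = Ψ := by
  cases Φ; cases Ψ; simp only at h; subst h; rfl

open Classical in
/-- weights on faces -/
noncomputable def wt (Φ : Flg 𝒯) (a : Fin (d + 1) → ℝ) (F : Set (E d)) : ℝ :=
  ∑ i, if Φ.F i = F then a i else 0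

theorem wt_apply (Φ : Flg 𝒯) (a : Fin (d + 1) → ℝ) (i : Fin (d + 1)) :
    wt Φ a (Φ.F i) = a i := by
  classical
  unfold wt
  rw [Finset.sum_eq_single i]
  · simp
  · intro j _ hj
    rw [if_neg]
    intro h
    exact hj (Φ.mono.injective h)
  · intro h
    exact absurd (Finset.mem_univ i) h

open Classical in
/-- faces with positive weight -/
noncomputable def ch (Φ : Flg 𝒯) (a : Fin (d + 1) → ℝ) : Finset (Set (E d)) :=
  (Finset.univ.filter fun i => 0 < a i).image Φ.F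

theorem mem_ch (Φ : Flg 𝒯) (a : Fin (d + 1) → ℝ) (F : Set (E d)) :
    F ∈ ch Φ a ↔ ∃ i, 0 < a i ∧ Φ.F i = F := by
  classical
  simp [ch]

theorem sum_ch (Φ : Flg 𝒯) (a : Fin (d + 1) → ℝ) (ha : ∀ i, 0 ≤ a i) :
    ∑ F ∈ ch Φ a, wt Φ a F = ∑ i, a i := by
  classical
  unfold ch
  rw [Finset.sum_image (fun i _ j _ h => Φ.mono.injective h)]
  simp only [wt_apply]
  apply Finset.sum_subset (Finset.filter_subset _ _)
  intro i _ hi
  simp only [Finset.mem_filter, Finset.mem_univ, true_and, not_lt] at hi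
  exact le_antisymm hi (ha i)

theorem sum_ch_smul (Φ : Flg 𝒯) (a : Fin (d + 1) → ℝ) (ha : ∀ i, 0 ≤ a i)
    (c : Set (E d) → E d) :
    ∑ F ∈ ch Φ a, wt Φ a F • c F = ∑ i, a i • c (Φ.F i) := by
  classical
  unfold ch
  rw [Finset.sum_image (fun i _ j _ h => Φ.mono.injective h)]
  simp only [wt_apply]
  apply Finset.sum_subset (Finset.filter_subset _ _)
  intro i _ hi
  simp only [Finset.mem_filter, Finset.mem_univ, true_and, not_lt] at hi
  rw [le_antisymm hi (ha i), zero_smul]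

theorem ch_chain (Φ : Flg 𝒯) (a : Fin (d + 1) → ℝ) :
    IsChain (· ⊆ ·) (ch Φ a : Set (Set (E d))) := by
  intro F hF G hG _
  rw [Finset.mem_coe, mem_ch] at hF hG
  obtain ⟨i, _, rfl⟩ := hF
  obtain ⟨j, _, rfl⟩ := hG
  rcases le_total i j with h | h
  · left; exact Φ.mono.monotone h
  · right; exact Φ.mono.monotone h

end CXaux

open CXaux in
theorem cx_thm (hT : S_T3) (hC : S_COV) (hD : S_DIM) (hF : S_FULL) (hG : S_GLOB) : S_CX := by
  classical
  intro d 𝒯 hd hL hR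
  obtain ⟨-, -, -, hG4, -, -, hG7⟩ := hG d 𝒯 hL
  obtain ⟨hD1, hD2, hD3⟩ := hD d 𝒯 hL
  have hFull := hF d 𝒯 hd hL hR
  let c : Set (E d) → E d := fun F => if h : (ri F).Nonempty then h.choose else 0
  have hc : ∀ F, Fc 𝒯 F → c F ∈ ri F := by
    intro F hF
    have h := (hG4 F hF).2.2
    simp only [c, dif_pos h]
    exact h.choose_spec
  have hCov := hC d 𝒯 hL c hc
  have hT3 := hT d 𝒯 hL c hc
  have hrank : ∀ (Φ Ψ : Flg 𝒯) (i j : Fin (d + 1)), Φ.F i = Ψ.F j → i = j := by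
    intro Φ Ψ i j h
    have h1 := hD2 Φ i
    have h2 := hD2 Ψ j
    rw [h, h2] at h1
    exact (Fin.ext h1).symm
  have hcell : ∀ Φ : Flg 𝒯, convexHull ℝ (range fun i => c (Φ.F i)) ⊆ Φ.F (Fin.last d) := by
    intro Φ
    apply convexHull_min
    · rintro _ ⟨i, rfl⟩
      exact Φ.mono.monotone (Fin.le_last i) (hc _ (Φ.fc i)).1
    · exact (hG4 _ (Φ.fc _)).2.1
  refine ⟨⟨fun Φ => Φ.F, c, fun Φ Ψ h => flg_inj Φ Ψ h, ?_, ?_, ?_, ?_⟩, fun Φ => rfl, hc⟩
  · intro Φ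
    exact (hD1 (d + 1) Φ.F c Φ.fc Φ.mono (fun i => hc _ (Φ.fc i))).1
  · intro x
    obtain ⟨C, a, hC1, hC2, hC3, hC4, hC5⟩ := hCov x
    obtain ⟨Φ, hΦ⟩ := hFull (C : Set (Set (E d))) (fun F hF => hC1 F hF) hC2
    refine ⟨Φ, ?_⟩
    rw [← hC5]
    apply (convex_convexHull ℝ _).sum_mem (fun F hF => (hC3 F hF).le) hC4
    intro F hF
    apply subset_convexHull
    obtain ⟨i, hi⟩ := hΦ F hF
    exact ⟨i, congrArg c hi⟩
  · intro K hK
    have hfin := hG7 K hK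
    have hsub : {Φ : Flg 𝒯 | (convexHull ℝ (range fun i => c (Φ.F i)) ∩ K).Nonempty} ⊆
        ⋃ T ∈ {F | Fc 𝒯 F ∧ (F ∩ K).Nonempty},
          {Φ : Flg 𝒯 | Φ.F ∈ {f : Fin (d + 1) → Set (E d) |
            ∀ i, f i ∈ {F | Fc 𝒯 F ∧ (F ∩ T).Nonempty}}} := by
      intro Φ hΦ
      obtain ⟨x, hx1, hx2⟩ := hΦ
      rw [mem_iUnion₂]
      refine ⟨Φ.F (Fin.last d), ⟨Φ.fc _, ⟨x, hcell Φ hx1, hx2⟩⟩, ?_⟩
      intro i
      refine ⟨Φ.fc i, ?_⟩
      rw [inter_eq_left.2 (Φ.mono.monotone (Fin.le_last i))]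
      exact (Φ.fc i).1
    refine Set.Finite.subset (Set.Finite.biUnion hfin ?_) hsub
    intro T hT
    have hTc := (hG4 T hT.1).1
    have h1 := hG7 T hTc
    have h2 : {f : Fin (d + 1) → Set (E d) |
            ∀ i, f i ∈ {F | Fc 𝒯 F ∧ (F ∩ T).Nonempty}}.Finite :=
      Set.Finite.pi' (fun _ => h1)
    exact h2.preimage (fun Φ _ Ψ _ h => flg_inj Φ Ψ h)
  · intro Φ Ψ a b ha hb ha1 hb1 hab
    have key := hT3 (ch Φ a) (ch Ψ b) (wt Φ a) (wt Ψ b)
      (fun F hF => by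
        obtain ⟨i, _, rfl⟩ := (mem_ch Φ a F).1 hF
        exact Φ.fc i)
      (fun F hF => by
        obtain ⟨i, _, rfl⟩ := (mem_ch Ψ b F).1 hF
        exact Ψ.fc i)
      (ch_chain Φ a) (ch_chain Ψ b)
      (fun F hF => by
        obtain ⟨i, hi, rfl⟩ := (mem_ch Φ a F).1 hF
        rw [wt_apply]; exact hi)
      (fun F hF => by
        obtain ⟨i, hi, rfl⟩ := (mem_ch Ψ b F).1 hF
        rw [wt_apply]; exact hi)
      (by rw [sum_ch Φ a ha, ha1]) (by rw [sum_ch Ψ b hb, hb1])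
      (by rw [sum_ch_smul Φ a ha, sum_ch_smul Ψ b hb]; exact hab)
    obtain ⟨hCC, hw⟩ := key
    have h1 : ∀ i, 0 < a i → Φ.F i = Ψ.F i ∧ a i = b i := by
      intro i hi
      have hm : Φ.F i ∈ ch Φ a := (mem_ch Φ a _).2 ⟨i, hi, rfl⟩
      have hw' := hw _ hm
      rw [hCC] at hm
      obtain ⟨j, _, hj⟩ := (mem_ch Ψ b _).1 hm
      have hij := hrank Ψ Φ j i hj
      subst hij
      refine ⟨hj.symm, ?_⟩
      rw [wt_apply, ← hj, wt_apply] at hw'
      exact hw'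
    refine ⟨?_, fun i hi => (h1 i hi).1⟩
    funext i
    rcases (ha i).eq_or_lt with h | h
    · rcases (hb i).eq_or_lt with h' | h'
      · rw [← h, ← h']
      · exfalso
        have hm : Ψ.F i ∈ ch Ψ b := (mem_ch Ψ b _).2 ⟨i, h', rfl⟩
        rw [← hCC] at hm
        obtain ⟨j, hj0, hj⟩ := (mem_ch Φ a _).1 hm
        have hij := hrank Φ Ψ j i hj
        subst hij
        rw [← h] at hj0
        exact lt_irrefl _ hj0
    · exact (h1 i h).2

end TL
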